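import Mathlib
import Pool.Agent.H42.Aron

namespace Pool.Agent.Results.MP_8fd369_lc.Full

open Set Ordinal

/-- An Aronszajn line: uncountable, with no subset of type `ω₁` or of the reversed type, and no
uncountable subset order-isomorphic to a set of reals. -/
def IsAronszajnLine (A : Type) [LinearOrder A] : Prop :=
  Uncountable A ∧ IsEmpty ((ω₁ : Ordinal.{0}).ToType ↪o A) ∧
    IsEmpty (((ω₁ : Ordinal.{0}).ToType)ᵒᵈ ↪o A) ∧
    ∀ X : Set A, ¬ X.Countable → IsEmpty (X ↪o ℝ)

/-- The reply `b n` of the strategy `σ` of Player II, which sees the list `a 0, …, a n` of the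
moves of Player I (its own earlier moves are determined by these). -/
def reply {X : Type} (σ : List X → X) (a : ℕ → X) (n : ℕ) : X :=
  σ (List.ofFn fun i : Fin (n + 1) => a i)

/-- Player II has a winning strategy in `BG(X, S)`: as long as Player I has moved legally, the
reply is legal, and if Player I always moves legally then no point of `S` lies in all the
intervals `(a n, b n)`. -/
def IIWins (X : Type) [LinearOrder X] (S : Set X) : Prop :=
  ∃ σ : List X → X, ∀ a : ℕ → X,
    (∀ n, (∀ k < n, a k < a (k + 1) ∧ a (k + 1) < reply σ a k) →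
      a n < reply σ a n ∧ ∀ m, n = m + 1 → reply σ a n < reply σ a m) ∧
    ((∀ k, a k < a (k + 1) ∧ a (k + 1) < reply σ a k) →
      ¬ ∃ x ∈ S, ∀ n, a n < x ∧ x < reply σ a n)

theorem result : ∃ (A : Type) (_ : LinearOrder A), DenselyOrdered A ∧ IsAronszajnLine A ∧
    ∀ S : Set A, IIWins A S := by
  have hS : Pool.Agent.H42.Reg.RegUnc (ω₁ : Ordinal.{0}).ToType := by
    have := Pool.Agent.H42.Reg.regUnc_toType Cardinal.isRegular_aleph_one.{0}
      Cardinal.aleph0_lt_aleph_one
    rwa [Cardinal.ord_aleph] at this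
  have hc : ∀ a : (ω₁ : Ordinal.{0}).ToType, (Iio a).Countable := fun a => by
    have := hS.init a
    rw [Cardinal.mk_toType, Ordinal.card_omega] at this
    exact Cardinal.countable_iff_lt_aleph_one _ |>.2 this
  obtain ⟨e, h1, h2⟩ := Pool.Agent.H42.Aron.exists_coh hS.nonempty hc
  obtain ⟨σ, s1, s2, s3⟩ := Pool.Agent.H42.Aron.strat hS h1 h2
  refine ⟨Pool.Agent.H42.Aron.L e, inferInstance, Pool.Agent.H42.Aron.dense h2,
    ⟨Pool.Agent.H42.Aron.unc hS h2,
      ⟨fun g => Pool.Agent.H42.Aron.no_seq hS hc h1 h2 g g.injective (Or.inl g.monotone)⟩,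
      ⟨fun g => Pool.Agent.H42.Aron.no_seq hS hc h1 h2 (fun i => g (OrderDual.toDual i))
        (fun i j h => g.injective h) (Or.inr fun i j h => g.monotone h)⟩,
      fun X hX => ⟨fun φ => Pool.Agent.H42.Aron.no_real hS hc h2 X hX φ⟩⟩, fun S => ?_⟩
  obtain ⟨a₀⟩ : Nonempty (Pool.Agent.H42.Aron.L e) := by
    have := Pool.Agent.H42.Aron.unc hS h2
    infer_instance
  have hr : ∀ a n, reply (fun l => σ (l.getLastD a₀)) a n = σ (a n) := fun a n => by
    unfold reply
    rw [List.ofFn_succ_last]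
    simp
  refine ⟨fun l => σ (l.getLastD a₀), fun a => ?_⟩
  simp only [hr]
  refine ⟨fun n hn => ⟨s1 _, fun m hm => ?_⟩, fun ha ⟨x, _, hx⟩ => s3 a ha x hx⟩
  subst hm
  exact s2 _ _ (hn m (Nat.lt_succ_self m)).1 (hn m (Nat.lt_succ_self m)).2

end Pool.Agent.Results.MP_8fd369_lc.Full
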